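import Pool.Agent.V8H94.CX.Main

/-!
# The conjecture of Parshin
-/

set_option autoImplicit false

namespace Pool.Agent.V8H71.CX

open Module TensorProduct Pool.Agent.V8H94.TC Pool.Agent.V8H94.TV Pool.Agent.V8H94.CW
  Pool.Agent.V8H94.CX
open Pool.Agent.V8H94.CT (AbVar)

variable {p : ℕ} [Fact p.Prime] {Ω : Type} [Field Ω] [CharZero Ω]

/-- There are no Tate classes of codimension larger than the dimension. -/
theorem eq_zero_of_tate (A : AbVar p Ω) {n : ℕ} (hn : dimAb A < n) {x : Coh A}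
    (hx : IsTate A n x) : x = 0 := by
  have h1 : x ∈ (⋀[Ω]^(2 * n) A.H : Submodule Ω (ExteriorAlgebra Ω A.H)) := hx.1
  have h2 : finrank Ω A.H < 2 * n := by
    unfold dimAb at hn
    omega
  have h3 : finrank Ω (⋀[Ω]^(2 * n) A.H) = 0 := by
    rw [exteriorPower.finrank_eq, Nat.choose_eq_zero_of_lt h2]
  have h4 : (⋀[Ω]^(2 * n) A.H : Submodule Ω (ExteriorAlgebra Ω A.H)) = ⊥ :=
    Submodule.finrank_eq_zero.1 h3
  rw [h4] at h1
  exact (Submodule.mem_bot Ω).1 h1

/-- The conjecture of Parshin for abelian varieties follows from the Tate conjecture. -/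
theorem parshin_ab [IsAlgClosed Ω] {T : Varieties Ω} {Z : Cycles p T}
    {D : ChowGroups (p := p) T} (hD : IsChowGroups Z D) (A : AbVar p Ω)
    (hT : ∀ r, TateHolds Z.S A r) (n : ℕ) {V : Type} [AddCommGroup V] [Module Ω V]
    (ρ : (D.ab A).R →ₐ[Ω] Module.End Ω V)
    (hρ : ∀ α, ∃ s : ℕ, 0 < s ∧ ρ ((D.ab A).fr ^ s) α = ((p : Ω) ^ A.m) ^ (n * s) • α)
    (h0 : n ≤ dimAb A → ∀ z z', ρ ((D.ab A).rk n z z') = 0) : Subsingleton V := by
  have hp : (p : Ω) ≠ 0 := Nat.cast_ne_zero.2 (Fact.out : p.Prime).ne_zero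
  by_cases hn : n ≤ dimAb A
  · exact parshin (hD.ab A) (pow_ne_zero _ hp) hn (strongTateAt_ab hD A hT n) ρ hρ (h0 hn)
  · refine parshin_large (hD.ab A) (fun s hs x hx => ?_) ρ hρ
    have h1 : IsGen (frobAb A ^ s) (((p : Ω) ^ A.m) ^ (n * s)) x := by
      refine ⟨1, ?_⟩
      rw [pow_one, LinearMap.sub_apply, hx, LinearMap.smul_apply, LinearMap.id_apply, sub_self]
    exact eq_zero_of_tate A (not_le.1 hn) (V8H1.CX.gen_ab A hs x h1 Z.S hT).2

/-- A module over the ring of correspondences on which the composites `X → B → X` act as zero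
vanishes if the motive of `X` is a retract. -/
theorem parshin_retract {T : Varieties Ω} {D : ChowGroups (p := p) T} {Q : Correspondences D}
    {X : T.V} (hX : IsRetract Q X) {V : Type} [AddCommGroup V] [Module Ω V]
    (ρ : Q.R X →ₐ[Ω] Module.End Ω V) (h0 : ∀ r ∈ Q.thr X, ∀ α : V, ρ r α = 0) :
    Subsingleton V := by
  have h : ∀ r ∈ Ideal.span (Q.thr X), ∀ α : V, ρ r α = 0 := by
    intro r hr
    induction hr using Submodule.span_induction with
    | zero => intro α; rw [map_zero, LinearMap.zero_apply]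
    | add x y _ _ hx hy => intro α; rw [map_add, LinearMap.add_apply, hx, hy, add_zero]
    | smul r x _ hx => intro α; rw [smul_eq_mul, map_mul, Module.End.mul_apply, hx, map_zero]
    | mem x hx => exact h0 x hx
  have h1 : ∀ α : V, α = 0 := fun α => by
    have := h 1 hX α
    rwa [map_one, Module.End.one_apply] at this
  exact ⟨fun a b => by rw [h1 a, h1 b]⟩

end Pool.Agent.V8H71.CX
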